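import Mathlib

/-!
# SplitInt / Defs: definitions used in the statement

`Split` is the split interval `[0, 1] × {0, 1}` with the lexicographic order and the order topology,
`pt w` is the first coordinate of the point `w`.
-/

set_option autoImplicit false

namespace Pool.Agent.SplitInt

universe u

/-- The split interval (double arrow space): `[0, 1] × {0, 1}` with the lexicographic order. -/
def Split : Type := unitInterval ×ₗ Bool

noncomputable instance : LinearOrder Split := inferInstanceAs (LinearOrder (unitInterval ×ₗ Bool))

/-- The order topology. -/
noncomputable instance : TopologicalSpace Split := Preorder.topology Split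

instance : OrderTopology Split := ⟨rfl⟩

/-- First coordinate. -/
def Split.pt (w : Split) : unitInterval := (ofLex w).1

/-- `X` contains a copy of `(A × {0, 1}, lex)`, a subspace of the split interval, for some uncountable
subset `A` of `[0, 1]`. -/
def HasSplit (X : Type u) [TopologicalSpace X] : Prop :=
  ∃ A : Set unitInterval, ¬ A.Countable ∧
    ∃ g : {w : Split // w.pt ∈ A} → X, Topology.IsEmbedding g

/-- `L` is a continuous image of a compact linearly ordered space. -/
def OrdImage (L : Type u) [TopologicalSpace L] : Prop :=
  ∃ (K : Type u) (_ : LinearOrder K) (_ : TopologicalSpace K) (g : K → L),
    OrderTopology K ∧ CompactSpace K ∧ Continuous g ∧ Function.Surjective g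

/-- `L` is a continuous image of a compact linearly ordered space, or the closure of every countable
subset of `L` is metrizable or a continuous image of a compact linearly ordered space. -/
def Factor (L : Type u) [TopologicalSpace L] : Prop :=
  OrdImage L ∨ ∀ C : Set L, C.Countable →
    TopologicalSpace.MetrizableSpace (closure C) ∨ OrdImage (closure C)

end Pool.Agent.SplitInt
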