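import Pool.Agent.SplitInt.Emb

/-!
# SplitInt / Dep: dependence on countably many coordinates, separable factors
-/

set_option autoImplicit false

namespace Pool.Agent.SplitInt

open Set Topology Filter TopologicalSpace

variable {ι : Type*} {K : ι → Type*} [∀ i, TopologicalSpace (K i)]

/-- At a point, the function depends on countably many coordinates. -/
theorem exists_countable_at {X : Type*} [TopologicalSpace X] (hX : ∀ x : X, IsGδ {x})
    {f : (∀ i, K i) → X} (hf : Continuous f) (q : ∀ i, K i) :
    ∃ C : Set ι, C.Countable ∧ ∀ w : ∀ i, K i, (∀ i ∈ C, w i = q i) → f w = f q := by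
  classical
  obtain ⟨T, hTo, hTc, hT⟩ := hX (f q)
  have hq : ∀ U ∈ T, f q ∈ U := by
    intro U hU
    have : f q ∈ ⋂₀ T := by
      rw [← hT]
      rfl
    exact this U hU
  have hch : ∀ U ∈ T, ∃ I : Finset ι, ∃ u : ∀ a, Set (K a),
      (∀ a ∈ I, IsOpen (u a) ∧ q a ∈ u a) ∧ (I : Set ι).pi u ⊆ f ⁻¹' U := fun U hU =>
    isOpen_pi_iff.1 ((hTo U hU).preimage hf) q (hq U hU)
  choose! I hI using hch
  refine ⟨⋃ U ∈ T, (I U : Set ι), hTc.biUnion fun U _ => (I U).countable_toSet, ?_⟩
  intro w hw
  have h1 : f w ∈ ⋂₀ T := by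
    intro U hU
    obtain ⟨u, hu, hsub⟩ := hI U hU
    apply hsub
    intro i hi
    rw [hw i (mem_biUnion hU hi)]
    exact (hu i hi).2
  rw [← hT] at h1
  exact h1

/-- A countable set which is dense in the countable product of the factors in `J`. -/
theorem exists_countable_net [∀ i, SeparableSpace (K i)] [∀ i, Nonempty (K i)] {J : Set ι}
    (hJ : J.Countable) :
    ∃ E : Set (∀ i, K i), E.Countable ∧ ∀ (F : Finset ι) (u : ∀ i, Set (K i)),
      (∀ i ∈ F, IsOpen (u i)) → (∀ i ∈ F, (u i).Nonempty) → (∀ i ∈ F, i ∈ J) →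
        ∃ q ∈ E, ∀ i ∈ F, q i ∈ u i := by
  classical
  have : Countable J := hJ.to_subtype
  have p : ∀ i, K i := fun i => Classical.arbitrary (K i)
  obtain ⟨D, hDc, hD⟩ := exists_countable_dense (∀ i : J, K i)
  refine ⟨(fun z i => if h : i ∈ J then z ⟨i, h⟩ else p i) '' D, hDc.image _, ?_⟩
  intro F u huo hune hFJ
  have hfin : {i : J | i.1 ∈ F}.Finite :=
    F.finite_toSet.preimage (Subtype.val_injective.injOn)
  have hopen : IsOpen ({i : J | i.1 ∈ F}.pi fun i : J => u i) :=
    isOpen_set_pi hfin fun i hi => huo i hi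
  have hne : ({i : J | i.1 ∈ F}.pi fun i : J => u i).Nonempty := by
    refine ⟨fun i => if h : i.1 ∈ F then (hune i h).some else p i, ?_⟩
    intro i hi
    have hi' : i.1 ∈ F := hi
    simp only [hi', dif_pos]
    exact (hune i hi').some_mem
  obtain ⟨z, hzD, hz⟩ := hD.exists_mem_open hopen hne
  refine ⟨_, ⟨z, hzD, rfl⟩, ?_⟩
  intro i hi
  simp only [hFJ i hi, dif_pos]
  exact hz ⟨i, hFJ i hi⟩ hi

/-- A continuous map from a product of separable spaces to a Hausdorff space with `G_δ` points
depends on countably many coordinates. -/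
theorem exists_countable_dep [∀ i, SeparableSpace (K i)] [∀ i, Nonempty (K i)] {X : Type*}
    [TopologicalSpace X] [T2Space X] (hX : ∀ x : X, IsGδ {x}) {f : (∀ i, K i) → X}
    (hf : Continuous f) :
    ∃ J : Set ι, J.Countable ∧ ∀ z w : ∀ i, K i, (∀ i ∈ J, z i = w i) → f z = f w := by
  classical
  choose c hcc hcf using exists_countable_at hX hf
  have hnet : ∀ J : Set ι, J.Countable → ∃ E : Set (∀ i, K i), E.Countable ∧
      ∀ (F : Finset ι) (u : ∀ i, Set (K i)),
      (∀ i ∈ F, IsOpen (u i)) → (∀ i ∈ F, (u i).Nonempty) → (∀ i ∈ F, i ∈ J) →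
        ∃ q ∈ E, ∀ i ∈ F, q i ∈ u i := fun J hJ => exists_countable_net hJ
  choose! E hEc hE using hnet
  let Jn : ℕ → Set ι := fun n => Nat.rec ∅ (fun _ J => J ∪ ⋃ q ∈ E J, c q) n
  have hJ0 : Jn 0 = ∅ := rfl
  have hJs : ∀ n, Jn (n + 1) = Jn n ∪ ⋃ q ∈ E (Jn n), c q := fun n => rfl
  have hJc : ∀ n, (Jn n).Countable := by
    intro n
    induction n with
    | zero => exact countable_empty
    | succ n ih =>
      rw [hJs]
      exact ih.union ((hEc _ ih).biUnion fun q _ => hcc q)
  have hmono : Monotone Jn := by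
    apply monotone_nat_of_le_succ
    intro n
    rw [hJs]
    exact subset_union_left
  set J : Set ι := ⋃ n, Jn n with hJ
  have hcJ : ∀ n, ∀ q ∈ E (Jn n), c q ⊆ J := by
    intro n q hq i hi
    rw [hJ, mem_iUnion]
    refine ⟨n + 1, ?_⟩
    rw [hJs]
    exact Or.inr (mem_biUnion hq hi)
  refine ⟨J, countable_iUnion hJc, ?_⟩
  -- the dense set
  set Y : Set (∀ i, K i) := {y | ∃ n, ∃ q ∈ E (Jn n), ∀ i ∈ J, y i = q i} with hY
  have hYd : Dense Y := by
    rw [dense_iff_inter_open]
    intro O hO hne
    obtain ⟨z, hz⟩ := hne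
    obtain ⟨F, u, hu, hsub⟩ := isOpen_pi_iff.1 hO z hz
    -- a stage containing the coordinates
    have hstage : ∃ n, ∀ i ∈ F, i ∈ J → i ∈ Jn n := by
      have h1 : ∀ i ∈ J, ∃ n, i ∈ Jn n := by
        intro i hi
        rw [hJ, mem_iUnion] at hi
        exact hi
      choose! m hm using h1
      refine ⟨F.sup m, fun i hiF hiJ => hmono (Finset.le_sup hiF) (hm i hiJ)⟩
    obtain ⟨n, hn⟩ := hstage
    obtain ⟨q, hq, hqu⟩ := hE (Jn n) (hJc n) (F.filter fun i => i ∈ J) u
      (fun i hi => (hu i (Finset.mem_filter.1 hi).1).1)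
      (fun i hi => ⟨z i, (hu i (Finset.mem_filter.1 hi).1).2⟩)
      (fun i hi => hn i (Finset.mem_filter.1 hi).1 (Finset.mem_filter.1 hi).2)
    refine ⟨fun i => if i ∈ J then q i else z i, ?_, n, q, hq, ?_⟩
    · apply hsub
      intro i hi
      by_cases hiJ : i ∈ J
      · simp only [hiJ, if_true]
        exact hqu i (Finset.mem_filter.2 ⟨hi, hiJ⟩)
      · simp only [hiJ, if_false]
        exact (hu i hi).2
    · intro i hi
      simp only [hi, if_true]
  have hcontΦ : ∀ w : ∀ i, K i, Continuous fun y : ∀ i, K i => fun i => if i ∈ J then y i else w i := by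
    intro w
    apply continuous_pi
    intro i
    by_cases hi : i ∈ J
    · simp only [hi, if_true]
      exact continuous_apply i
    · simp only [hi, if_false]
      exact continuous_const
  have hindep : ∀ w w' y : ∀ i, K i, f (fun i => if i ∈ J then y i else w i) =
      f (fun i => if i ∈ J then y i else w' i) := by
    intro w w' y
    have h1 : (fun y : ∀ i, K i => f (fun i => if i ∈ J then y i else w i)) =
        fun y => f (fun i => if i ∈ J then y i else w' i) := by
      apply Continuous.ext_on hYd (hf.comp (hcontΦ w)) (hf.comp (hcontΦ w'))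
      rintro y ⟨n, q, hq, hyq⟩
      have h2 : ∀ w : ∀ i, K i, f (fun i => if i ∈ J then y i else w i) = f q := by
        intro w
        apply hcf
        intro i hi
        have hiJ : i ∈ J := hcJ n q hq hi
        simp only [hiJ, if_true]
        exact hyq i hiJ
      show f _ = f _
      rw [h2 w, h2 w']
    exact congrFun h1 y
  intro z w hzw
  have h1 : (fun i => if i ∈ J then z i else z i) = z := by
    funext i
    simp
  have h2 : (fun i => if i ∈ J then z i else w i) = w := by
    funext i
    by_cases hi : i ∈ J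
    · simp only [hi, if_true]
      exact hzw i hi
    · simp only [hi, if_false]
  calc f z = f (fun i => if i ∈ J then z i else z i) := by rw [h1]
    _ = f (fun i => if i ∈ J then z i else w i) := hindep z w z
    _ = f w := by rw [h2]

/-- A closed subset of a compact linearly ordered space has the order topology. -/
theorem orderTopology_of_isClosed {L : Type*} [LinearOrder L] [TopologicalSpace L]
    [OrderTopology L] [CompactSpace L] {C : Set L} (hC : IsClosed C) : OrderTopology C := by
  have hle : (instTopologicalSpaceSubtype : TopologicalSpace C) ≤ Preorder.topology C :=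
    induced_topology_le_preorder (fun {_ _} => Iff.rfl)
  have hcomp : CompactSpace C := isCompact_iff_compactSpace.1 hC.isCompact
  have hcont : @Continuous C C instTopologicalSpaceSubtype (Preorder.topology C) id :=
    continuous_id_iff_le.2 hle
  have hT2 : @T2Space C (Preorder.topology C) := by
    letI : TopologicalSpace C := Preorder.topology C
    haveI : OrderTopology C := ⟨rfl⟩
    infer_instance
  have hcl : @IsClosedMap C C instTopologicalSpaceSubtype (Preorder.topology C) id :=
    @Continuous.isClosedMap C C instTopologicalSpaceSubtype (Preorder.topology C) hcomp hT2 id hcont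
  constructor
  refine le_antisymm hle ?_
  intro U hU
  have h1 := hcl Uᶜ hU.isClosed_compl
  rw [image_id] at h1
  exact (@isClosed_compl_iff C (Preorder.topology C) U).1 h1

/-- The closure of a countable set is separable. -/
theorem separable_closure {L : Type*} [TopologicalSpace L] {C : Set L} (hC : C.Countable) :
    SeparableSpace (closure C) := by
  refine ⟨⟨Subtype.val ⁻¹' C, hC.preimage Subtype.val_injective, ?_⟩⟩
  rw [Subtype.dense_iff, Subtype.image_preimage_val, inter_eq_self_of_subset_right subset_closure]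

end Pool.Agent.SplitInt
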