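import Pool.Agent.SplitInt.Sep
import Pool.Agent.SplitInt.Defs

/-!
# SplitInt / Emb: the split interval and the embedding theorem
-/

set_option autoImplicit false

namespace Pool.Agent.SplitInt

open Set Topology Filter TopologicalSpace

/-- Second coordinate. -/
def Split.bit (w : Split) : Bool := (ofLex w).2

/-- The point `(x, i)`. -/
def Split.mk (x : unitInterval) (i : Bool) : Split := toLex (x, i)

@[simp] theorem Split.pt_mk (x : unitInterval) (i : Bool) : (Split.mk x i).pt = x := rfl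

@[simp] theorem Split.bit_mk (x : unitInterval) (i : Bool) : (Split.mk x i).bit = i := rfl

theorem Split.eta (w : Split) : Split.mk w.pt w.bit = w := rfl

theorem Split.lt_iff {w w' : Split} :
    w < w' ↔ w.pt < w'.pt ∨ (w.pt = w'.pt ∧ w.bit < w'.bit) :=
  Prod.Lex.lt_iff (α := unitInterval) (β := Bool)

theorem left_nbhd {K : Type*} [LinearOrder K] [TopologicalSpace K] [OrderTopology K] {Q : Set K}
    (hQ : Dense Q) {a b : K} (hab : a ⋖ b) {W : Set K} (hW : IsOpen W) (ha : a ∈ W) :
    ∃ p ∈ Q, p ≤ a ∧ Icc p a ⊆ W := by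
  by_cases h : ∃ l, l < a
  · obtain ⟨l, hl, hlW⟩ := exists_Ioc_subset_of_mem_nhds (hW.mem_nhds ha) h
    obtain ⟨p, hp, hpQ⟩ := hQ.exists_mem_open (isOpen_Ioo (a := l) (b := b)) ⟨a, hl, hab.lt⟩
    have hpa : p ≤ a := hab.le_of_lt hpQ.2
    exact ⟨p, hp, hpa, fun x hx => hlW ⟨hpQ.1.trans_le hx.1, hx.2⟩⟩
  · push Not at h
    obtain ⟨p, hp, hpQ⟩ := hQ.exists_mem_open (isOpen_Iio (a := b)) ⟨a, hab.lt⟩
    have hpa : p ≤ a := hab.le_of_lt hpQ
    have hpa' : p = a := le_antisymm hpa (h p)
    subst hpa'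
    exact ⟨p, hp, le_rfl, by rw [Icc_self]; exact singleton_subset_iff.2 ha⟩

theorem right_nbhd {K : Type*} [LinearOrder K] [TopologicalSpace K] [OrderTopology K] {Q : Set K}
    (hQ : Dense Q) {a b : K} (hab : a ⋖ b) {W : Set K} (hW : IsOpen W) (hb : b ∈ W) :
    ∃ p ∈ Q, b ≤ p ∧ Icc b p ⊆ W := by
  by_cases h : ∃ l, b < l
  · obtain ⟨l, hl, hlW⟩ := exists_Ico_subset_of_mem_nhds (hW.mem_nhds hb) h
    obtain ⟨p, hp, hpQ⟩ := hQ.exists_mem_open (isOpen_Ioo (a := a) (b := l)) ⟨b, hab.lt, hl⟩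
    have hpa : b ≤ p := hab.ge_of_gt hpQ.1
    exact ⟨p, hp, hpa, fun x hx => hlW ⟨hx.1, hx.2.trans_lt hpQ.2⟩⟩
  · push Not at h
    obtain ⟨p, hp, hpQ⟩ := hQ.exists_mem_open (isOpen_Ioi (a := a)) ⟨b, hab.lt⟩
    have hpa : b ≤ p := hab.ge_of_gt hpQ
    have hpa' : p = b := le_antisymm (h p) hpa
    subst hpa'
    exact ⟨p, hp, le_rfl, by rw [Icc_self]; exact singleton_subset_iff.2 hb⟩

/-- The embedding theorem. -/
theorem embed_of_jumps {K X : Type*} [LinearOrder K] [TopologicalSpace K] [OrderTopology K]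
    [CompactSpace K] [TopologicalSpace X] [T2Space X] {s : K → X} (hs : Continuous s) {Q : Set K}
    (hQ : Dense Q) (φ : K → unitInterval) (hφm : Monotone φ)
    (hφ : ∀ x y, (Q ∩ Ioc x y).Nonempty → φ x < φ y)
    (p q : K) (T : Set (K × K)) (hT : ¬ T.Countable) (hTj : ∀ t ∈ T, t.1 ⋖ t.2)
    (hTp : ∀ t ∈ T, p ≤ t.1) (hTq : ∀ t ∈ T, t.2 ≤ q)
    (hTd : ∀ t ∈ T, Disjoint (s '' Icc p t.1) (s '' Icc t.2 q)) :
    ∃ A : Set unitInterval, ¬ A.Countable ∧ ∃ g : {w : Split // w.pt ∈ A} → X, IsEmbedding g := by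
  classical
  have hTne : T.Nonempty := by
    rw [nonempty_iff_ne_empty]
    rintro rfl
    exact hT countable_empty
  obtain ⟨t₀, ht₀⟩ := hTne
  have : Nonempty (K × K) := ⟨t₀⟩
  set S : Set unitInterval := (fun t : K × K => φ t.1) '' T with hS
  -- `φ` is injective on left end points
  have hlt : ∀ t ∈ T, ∀ t' ∈ T, t.1 < t'.1 → φ t.1 < φ t'.1 := by
    intro t ht t' ht' h
    obtain ⟨e, he, heQ⟩ := hQ.exists_mem_open (isOpen_Ioo (a := t.1) (b := t'.2))
      ⟨t'.1, h, (hTj t' ht').lt⟩
    exact hφ _ _ ⟨e, he, heQ.1, (hTj t' ht').le_of_lt heQ.2⟩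
  have hinj : InjOn (fun t : K × K => φ t.1) T := by
    intro t ht t' ht' h
    have h1 : t.1 = t'.1 := by
      rcases lt_trichotomy t.1 t'.1 with h' | h' | h'
      · exact absurd h (hlt t ht t' ht' h').ne
      · exact h'
      · exact absurd h (hlt t' ht' t ht h').ne'
    have h2 : t.2 = t'.2 := by
      have h3 := hTj t ht
      rw [h1] at h3
      exact h3.unique_right (hTj t' ht')
    exact Prod.ext h1 h2
  have hSunc : ¬ S.Countable := by
    intro h
    exact hT (countable_of_injective_of_countable_image hinj h)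
  have hch : ∀ x ∈ S, ∃ t ∈ T, φ t.1 = x := by
    rintro _ ⟨t, ht, rfl⟩
    exact ⟨t, ht, rfl⟩
  choose! τ hτT hτφ using hch
  have hcov : ∀ x ∈ S, (τ x).1 ⋖ (τ x).2 := fun x hx => hTj _ (hτT x hx)
  have hord : ∀ x ∈ S, ∀ y ∈ S, x < y → (τ x).2 ≤ (τ y).1 := by
    intro x hx y hy hxy
    apply (hcov x hx).ge_of_gt
    by_contra h
    have h1 := hφm (not_lt.1 h)
    rw [hτφ x hx, hτφ y hy] at h1
    exact absurd hxy (not_lt.2 h1)
  -- two-sided accumulation points
  set A : Set unitInterval := {x | x ∈ S ∧ x ∈ closure (S ∩ Iio x) ∧ x ∈ closure (S ∩ Ioi x)}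
    with hA
  have hAunc : ¬ A.Countable := by
    intro h
    apply hSunc
    have h1 : S ⊆ A ∪ ({x | x ∈ S ∧ 𝓝[S ∩ Iio x] x = ⊥} ∪ {x | x ∈ S ∧ 𝓝[S ∩ Ioi x] x = ⊥}) := by
      intro x hx
      by_cases h1 : 𝓝[S ∩ Iio x] x = ⊥
      · exact Or.inr (Or.inl ⟨hx, h1⟩)
      · by_cases h2 : 𝓝[S ∩ Ioi x] x = ⊥
        · exact Or.inr (Or.inr ⟨hx, h2⟩)
        · refine Or.inl ⟨hx, ?_, ?_⟩
          · rw [mem_closure_iff_nhdsWithin_neBot]
            exact ⟨h1⟩
          · rw [mem_closure_iff_nhdsWithin_neBot]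
            exact ⟨h2⟩
    exact (h.union (countable_setOfPred_isolated_left_within.union
      countable_setOfPred_isolated_right_within)).mono h1
  have hAS : ∀ x ∈ A, x ∈ S := fun x hx => hx.1
  have hleft : ∀ x ∈ A, ∀ c, c < x → ∃ y ∈ S, c < y ∧ y < x := by
    intro x hx c hc
    obtain ⟨y, hy1, hy2, hy3⟩ := mem_closure_iff.1 hx.2.1 (Ioi c) isOpen_Ioi hc
    exact ⟨y, hy2, hy1, hy3⟩
  have hright : ∀ x ∈ A, ∀ c, x < c → ∃ y ∈ S, x < y ∧ y < c := by
    intro x hx c hc
    obtain ⟨y, hy1, hy2, hy3⟩ := mem_closure_iff.1 hx.2.2 (Iio c) isOpen_Iio hc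
    exact ⟨y, hy2, hy3, hy1⟩
  have hleft0 : ∀ x ∈ A, ∃ y ∈ S, y < x := by
    intro x hx
    obtain ⟨y, _, hy2, hy3⟩ := mem_closure_iff.1 hx.2.1 univ isOpen_univ (mem_univ x)
    exact ⟨y, hy2, hy3⟩
  have hright0 : ∀ x ∈ A, ∃ y ∈ S, x < y := by
    intro x hx
    obtain ⟨y, _, hy2, hy3⟩ := mem_closure_iff.1 hx.2.2 univ isOpen_univ (mem_univ x)
    exact ⟨y, hy2, hy3⟩
  -- continuity of the end points
  have hcl : ∀ x ∈ A, ∀ W : Set K, IsOpen W → (τ x).1 ∈ W →
      ∃ y ∈ S, y < x ∧ Icc (τ y).2 (τ x).1 ⊆ W := by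
    intro x hx W hW hxW
    have hxS := hAS x hx
    obtain ⟨y₀, hy₀, hy₀x⟩ := hleft0 x hx
    have h1 : (τ y₀).1 < (τ x).1 := (hcov y₀ hy₀).lt.trans_le (hord y₀ hy₀ x hxS hy₀x)
    obtain ⟨l, hl, hlW⟩ := exists_Ioc_subset_of_mem_nhds (hW.mem_nhds hxW) ⟨_, h1⟩
    obtain ⟨e, he, heQ⟩ := hQ.exists_mem_open (isOpen_Ioo (a := l) (b := (τ x).2))
      ⟨(τ x).1, hl, (hcov x hxS).lt⟩
    have h2 : φ l < x := by
      have h3 := hφ l (τ x).1 ⟨e, he, heQ.1, (hcov x hxS).le_of_lt heQ.2⟩
      rwa [hτφ x hxS] at h3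
    obtain ⟨y, hy, hly, hyx⟩ := hleft x hx _ h2
    refine ⟨y, hy, hyx, fun z hz => hlW ⟨?_, hz.2⟩⟩
    have h4 : l < (τ y).1 := by
      by_contra h
      have h5 := hφm (not_lt.1 h)
      rw [hτφ y hy] at h5
      exact absurd hly (not_lt.2 h5)
    exact (h4.trans (hcov y hy).lt).trans_le hz.1
  have hcr : ∀ x ∈ A, ∀ W : Set K, IsOpen W → (τ x).2 ∈ W →
      ∃ y ∈ S, x < y ∧ Icc (τ x).2 (τ y).1 ⊆ W := by
    intro x hx W hW hxW
    have hxS := hAS x hx
    obtain ⟨y₀, hy₀, hy₀x⟩ := hright0 x hx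
    have h1 : (τ x).2 < (τ y₀).2 := (hord x hxS y₀ hy₀ hy₀x).trans_lt (hcov y₀ hy₀).lt
    obtain ⟨u, hu, huW⟩ := exists_Ico_subset_of_mem_nhds (hW.mem_nhds hxW) ⟨_, h1⟩
    obtain ⟨e, he, heQ⟩ := hQ.exists_mem_open (isOpen_Ioo (a := (τ x).1) (b := u))
      ⟨(τ x).2, (hcov x hxS).lt, hu⟩
    have h2 : x < φ u := by
      have h3 := hφ (τ x).1 u ⟨e, he, heQ.1, heQ.2.le⟩
      rwa [hτφ x hxS] at h3
    obtain ⟨y, hy, hxy, hyu⟩ := hright x hx _ h2
    refine ⟨y, hy, hxy, fun z hz => huW ⟨hz.1, lt_of_le_of_lt hz.2 ?_⟩⟩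
    by_contra h
    have h5 := hφm (not_lt.1 h)
    rw [hτφ y hy] at h5
    exact absurd hyu (not_lt.2 h5)
  -- the map
  let h : {w : Split // w.pt ∈ A} → K := fun w => if w.1.bit then (τ w.1.pt).2 else (τ w.1.pt).1
  have hge : ∀ w, (τ w.1.pt).1 ≤ h w := by
    intro w
    have := (hcov _ (hAS _ w.2)).le
    simp only [h]
    split_ifs
    · exact this
    · exact le_rfl
  have hle : ∀ w, h w ≤ (τ w.1.pt).2 := by
    intro w
    have := (hcov _ (hAS _ w.2)).le
    simp only [h]
    split_ifs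
    · exact le_rfl
    · exact this
  have hpw : ∀ w, p ≤ h w := fun w => (hTp _ (hτT _ (hAS _ w.2))).trans (hge w)
  have hqw : ∀ w, h w ≤ q := fun w => (hle w).trans (hTq _ (hτT _ (hAS _ w.2)))
  have hcpt : ∀ a b : K, IsClosed (s '' Icc a b) := fun a b =>
    ((isClosed_Icc (a := a) (b := b)).isCompact.image hs).isClosed
  refine ⟨A, hAunc, fun w => s (h w), ?_⟩
  apply IsInducing.isEmbedding
  rw [isInducing_iff_nhds]
  intro w
  obtain ⟨w, hw⟩ := w
  have hxS := hAS _ hw
  obtain ⟨x, hx⟩ : ∃ x, x = w.pt := ⟨_, rfl⟩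
  rw [← hx] at hxS
  have hxA : x ∈ A := by rw [hx]; exact hw
  apply le_antisymm
  · -- continuity
    apply Tendsto.le_comap
    intro V hV
    obtain ⟨V', hV'V, hV'o, hV'⟩ := mem_nhds_iff.1 hV
    rw [mem_map]
    have hWo : IsOpen (s ⁻¹' V') := hV'o.preimage hs
    rw [nhds_subtype_eq_comap]
    cases hb : w.bit with
    | false =>
      have hhw : h ⟨w, hw⟩ = (τ x).1 := by
        simp only [h, hb, hx]
        rfl
      obtain ⟨y, hy, hyx, hyW⟩ := hcl x hxA (s ⁻¹' V') hWo (by
        rw [mem_preimage, ← hhw]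
        exact hV')
      refine ⟨Ioo (Split.mk y true) (Split.mk x true), Ioo_mem_nhds ?_ ?_, ?_⟩
      · rw [Split.lt_iff]
        left
        rw [Split.pt_mk, ← hx]
        exact hyx
      · rw [Split.lt_iff]
        right
        exact ⟨hx.symm, by rw [hb]; exact Bool.false_lt_true⟩
      · rintro ⟨w', hw'⟩ ⟨h1, h2⟩
        apply hV'V
        apply hyW
        rw [Split.lt_iff] at h1 h2
        simp only [Split.pt_mk, Split.bit_mk] at h1 h2
        have h1' : y < w'.pt := by
          rcases h1 with h1 | ⟨_, h1⟩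
          · exact h1
          · exact absurd h1 (not_lt.2 (Bool.le_true _))
        have hw'S := hAS _ hw'
        refine ⟨(hord y hy _ hw'S h1').trans (hge ⟨w', hw'⟩), ?_⟩
        rcases h2 with h2 | ⟨h2, h3⟩
        · exact (hle ⟨w', hw'⟩).trans (hord _ hw'S x hxS h2)
        · have hb' : w'.bit = false := by
            cases hbb : w'.bit with
            | false => rfl
            | true =>
              rw [hbb] at h3
              exact absurd h3 (lt_irrefl _)
          have : h ⟨w', hw'⟩ = (τ x).1 := by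
            simp only [h, hb', ← h2]
            rfl
          rw [this]
    | true =>
      have hhw : h ⟨w, hw⟩ = (τ x).2 := by
        simp only [h, hb, hx]
        rfl
      obtain ⟨y, hy, hyx, hyW⟩ := hcr x hxA (s ⁻¹' V') hWo (by
        rw [mem_preimage, ← hhw]
        exact hV')
      refine ⟨Ioo (Split.mk x false) (Split.mk y false), Ioo_mem_nhds ?_ ?_, ?_⟩
      · rw [Split.lt_iff]
        right
        exact ⟨hx, by rw [hb]; exact Bool.false_lt_true⟩
      · rw [Split.lt_iff]
        left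
        rw [Split.pt_mk, ← hx]
        exact hyx
      · rintro ⟨w', hw'⟩ ⟨h1, h2⟩
        apply hV'V
        apply hyW
        rw [Split.lt_iff] at h1 h2
        simp only [Split.pt_mk, Split.bit_mk] at h1 h2
        have h2' : w'.pt < y := by
          rcases h2 with h2 | ⟨_, h2⟩
          · exact h2
          · exact absurd h2 (not_lt.2 (Bool.false_le _))
        have hw'S := hAS _ hw'
        refine ⟨?_, (hle ⟨w', hw'⟩).trans (hord _ hw'S y hy h2')⟩
        rcases h1 with h1 | ⟨h1, h3⟩
        · exact (hord x hxS _ hw'S h1).trans (hge ⟨w', hw'⟩)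
        · have hb' : w'.bit = true := by
            cases hbb : w'.bit with
            | true => rfl
            | false =>
              rw [hbb] at h3
              exact absurd h3 (lt_irrefl _)
          have : h ⟨w', hw'⟩ = (τ x).2 := by
            simp only [h, hb', ← h1]
            rfl
          rw [this]
  · -- openness
    intro N hN
    rw [nhds_subtype_eq_comap] at hN
    obtain ⟨O', hO', hON⟩ := hN
    have hdx := hTd _ (hτT x hxS)
    cases hb : w.bit with
    | false =>
      have hhw : h ⟨w, hw⟩ = (τ x).1 := by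
        simp only [h, hb, hx]
        rfl
      obtain ⟨y₀, hy₀, hy₀x⟩ := hleft0 x hxA
      obtain ⟨l, hl, hlO⟩ := exists_Ioc_subset_of_mem_nhds hO' ⟨Split.mk y₀ false, by
        rw [Split.lt_iff]
        left
        rw [Split.pt_mk, ← hx]
        exact hy₀x⟩
      have hlx : l.pt < x := by
        rw [Split.lt_iff] at hl
        rcases hl with hl | ⟨_, hl⟩
        · rw [hx]
          exact hl
        · rw [hb] at hl
          exact absurd hl (not_lt.2 (Bool.false_le _))
      obtain ⟨y, hy, hly, hyx⟩ := hleft x hxA _ hlx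
      refine ⟨(s '' Icc p (τ y).1 ∪ s '' Icc (τ x).2 q)ᶜ, ?_, ?_⟩
      · apply ((hcpt _ _).union (hcpt _ _)).isOpen_compl.mem_nhds
        rw [mem_compl_iff, mem_union, not_or]
        rw [hhw]
        constructor
        · intro hmem
          refine Set.disjoint_left.1 (hTd _ (hτT y hy)) hmem ⟨(τ x).1, ⟨hord y hy x hxS hyx, ?_⟩, rfl⟩
          exact (hcov x hxS).le.trans (hTq _ (hτT x hxS))
        · intro hmem
          exact Set.disjoint_left.1 hdx ⟨(τ x).1, ⟨hTp _ (hτT x hxS), le_rfl⟩, rfl⟩ hmem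
      · rintro ⟨w', hw'⟩ hmem
        apply hON
        apply hlO
        rw [mem_preimage, mem_compl_iff, mem_union, not_or] at hmem
        obtain ⟨hm1, hm2⟩ := hmem
        have hw'S := hAS _ hw'
        have g1 : (τ y).1 < h ⟨w', hw'⟩ := by
          by_contra hc
          exact hm1 ⟨_, ⟨hpw _, not_lt.1 hc⟩, rfl⟩
        have g2 : h ⟨w', hw'⟩ < (τ x).2 := by
          by_contra hc
          exact hm2 ⟨_, ⟨not_lt.1 hc, hqw _⟩, rfl⟩
        have g3 : y ≤ w'.pt := by
          by_contra hc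
          have := (hle ⟨w', hw'⟩).trans (hord _ hw'S y hy (not_le.1 hc))
          exact absurd g1 (not_lt.2 this)
        have g4 : w'.pt ≤ x := by
          by_contra hc
          have := (hord x hxS _ hw'S (not_le.1 hc)).trans (hge ⟨w', hw'⟩)
          exact absurd g2 (not_lt.2 this)
        refine ⟨?_, ?_⟩
        · rw [Split.lt_iff]
          left
          exact hly.trans_le g3
        · rcases g4.lt_or_eq with g5 | g5
          · apply le_of_lt
            change w' < w
            rw [Split.lt_iff]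
            left
            rw [← hx]
            exact g5
          · apply le_of_eq
            change w' = w
            have hb' : w'.bit = false := by
              cases hbb : w'.bit with
              | false => rfl
              | true =>
                exfalso
                have : h ⟨w', hw'⟩ = (τ x).2 := by
                  simp only [h, hbb, ← g5]
                  rfl
                rw [this] at g2
                exact lt_irrefl _ g2
            rw [← Split.eta w', ← Split.eta w, hb', hb, g5, hx]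
    | true =>
      have hhw : h ⟨w, hw⟩ = (τ x).2 := by
        simp only [h, hb, hx]
        rfl
      obtain ⟨y₀, hy₀, hy₀x⟩ := hright0 x hxA
      obtain ⟨u, hu, huO⟩ := exists_Ico_subset_of_mem_nhds hO' ⟨Split.mk y₀ false, by
        rw [Split.lt_iff]
        left
        rw [Split.pt_mk, ← hx]
        exact hy₀x⟩
      have hux : x < u.pt := by
        rw [Split.lt_iff] at hu
        rcases hu with hu | ⟨_, hu⟩
        · rw [hx]
          exact hu
        · rw [hb] at hu
          exact absurd hu (not_lt.2 (Bool.le_true _))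
      obtain ⟨y, hy, hxy, hyu⟩ := hright x hxA _ hux
      refine ⟨(s '' Icc p (τ x).1 ∪ s '' Icc (τ y).2 q)ᶜ, ?_, ?_⟩
      · apply ((hcpt _ _).union (hcpt _ _)).isOpen_compl.mem_nhds
        rw [mem_compl_iff, mem_union, not_or]
        rw [hhw]
        constructor
        · intro hmem
          exact Set.disjoint_left.1 hdx hmem ⟨(τ x).2, ⟨le_rfl, hTq _ (hτT x hxS)⟩, rfl⟩
        · intro hmem
          refine Set.disjoint_left.1 (hTd _ (hτT y hy)) ⟨(τ x).2, ⟨?_, hord x hxS y hy hxy⟩, rfl⟩ hmem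
          exact (hTp _ (hτT x hxS)).trans (hcov x hxS).le
      · rintro ⟨w', hw'⟩ hmem
        apply hON
        apply huO
        rw [mem_preimage, mem_compl_iff, mem_union, not_or] at hmem
        obtain ⟨hm1, hm2⟩ := hmem
        have hw'S := hAS _ hw'
        have g1 : (τ x).1 < h ⟨w', hw'⟩ := by
          by_contra hc
          exact hm1 ⟨_, ⟨hpw _, not_lt.1 hc⟩, rfl⟩
        have g2 : h ⟨w', hw'⟩ < (τ y).2 := by
          by_contra hc
          exact hm2 ⟨_, ⟨not_lt.1 hc, hqw _⟩, rfl⟩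
        have g3 : x ≤ w'.pt := by
          by_contra hc
          have := (hle ⟨w', hw'⟩).trans (hord _ hw'S x hxS (not_le.1 hc))
          exact absurd g1 (not_lt.2 this)
        have g4 : w'.pt ≤ y := by
          by_contra hc
          have := (hord y hy _ hw'S (not_le.1 hc)).trans (hge ⟨w', hw'⟩)
          exact absurd g2 (not_lt.2 this)
        refine ⟨?_, ?_⟩
        · rcases g3.lt_or_eq with g5 | g5
          · apply le_of_lt
            change w < w'
            rw [Split.lt_iff]
            left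
            rw [← hx]
            exact g5
          · apply le_of_eq
            change w = w'
            have hb' : w'.bit = true := by
              cases hbb : w'.bit with
              | true => rfl
              | false =>
                exfalso
                have : h ⟨w', hw'⟩ = (τ x).1 := by
                  simp only [h, hbb, g5]
                  rfl
                rw [this] at g1
                exact lt_irrefl _ g1
            rw [← Split.eta w', ← Split.eta w, hb', hb, ← g5, hx]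
        · change w' < u
          rw [Split.lt_iff]
          left
          exact g4.trans_lt hyu

end Pool.Agent.SplitInt
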