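import Pool.Agent.SplitInt.Dep

/-!
# SplitInt / Main: images of products of compact linearly ordered spaces
-/

set_option autoImplicit false

namespace Pool.Agent.SplitInt

open Set Topology Filter TopologicalSpace

/-- A monotone map to the unit interval which is strict at the points of a countable dense set. -/
theorem exists_phi {K : Type*} [LinearOrder K] [TopologicalSpace K] [SeparableSpace K]
    [Nonempty K] : ∃ (Q : Set K) (φ : K → unitInterval), Q.Countable ∧ Dense Q ∧ Monotone φ ∧
      ∀ x y, (Q ∩ Ioc x y).Nonempty → φ x < φ y := by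
  classical
  let e : ℕ → K := denseSeq K
  let a : K → ℕ → ℝ := fun x n => if e n ≤ x then 1 / 2 / 2 ^ n else 0
  have hg : HasSum (fun n : ℕ => (1 : ℝ) / 2 / 2 ^ n) 1 := hasSum_geometric_two' 1
  have ha0 : ∀ x n, 0 ≤ a x n := by
    intro x n
    simp only [a]
    split_ifs
    · positivity
    · exact le_rfl
  have ha1 : ∀ x n, a x n ≤ 1 / 2 / 2 ^ n := by
    intro x n
    simp only [a]
    split_ifs
    · exact le_rfl
    · positivity
  have hsum : ∀ x, Summable (a x) := fun x => Summable.of_nonneg_of_le (ha0 x) (ha1 x) hg.summable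
  have hle : ∀ x y, x ≤ y → ∀ n, a x n ≤ a y n := by
    intro x y hxy n
    simp only [a]
    split_ifs with h1 h2
    · exact le_rfl
    · exact absurd (h1.trans hxy) h2
    · positivity
    · exact le_rfl
  have hφ0 : ∀ x, 0 ≤ ∑' n, a x n := fun x => tsum_nonneg (ha0 x)
  have hφ1 : ∀ x, ∑' n, a x n ≤ 1 := by
    intro x
    rw [← hg.tsum_eq]
    exact (hsum x).tsum_le_tsum (ha1 x) hg.summable
  refine ⟨range e, fun x => ⟨∑' n, a x n, hφ0 x, hφ1 x⟩, countable_range e, denseRange_denseSeq K,
    ?_, ?_⟩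
  · intro x y hxy
    exact (hsum x).tsum_le_tsum (hle x y hxy) (hsum y)
  · rintro x y ⟨_, ⟨n, rfl⟩, hx, hy⟩
    apply Summable.tsum_lt_tsum (i := n) (hle x y (hx.le.trans hy)) ?_ (hsum x) (hsum y)
    simp only [a]
    rw [if_neg (not_le.2 hx), if_pos hy]
    positivity

theorem embed_factor {K X : Type*} [LinearOrder K] [TopologicalSpace K] [OrderTopology K]
    [CompactSpace K] [SeparableSpace K] [TopologicalSpace X] [T2Space X] {s : K → X}
    (hs : Continuous s) (h : ¬ {p : K × K | p.1 ⋖ p.2 ∧ s p.1 ≠ s p.2}.Countable) :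
    ∃ A : Set unitInterval, ¬ A.Countable ∧ ∃ g : {w : Split // w.pt ∈ A} → X, IsEmbedding g := by
  have hne : Nonempty K := by
    by_contra hK
    rw [not_nonempty_iff] at hK
    exact h (Set.to_countable _)
  obtain ⟨Q, φ, hQc, hQ, hφm, hφ⟩ := exists_phi (K := K)
  let T : K × K → Set (K × K) := fun r => {t | t.1 ⋖ t.2 ∧ r.1 ≤ t.1 ∧ t.2 ≤ r.2 ∧
    Disjoint (s '' Icc r.1 t.1) (s '' Icc t.2 r.2)}
  have hcov : {p : K × K | p.1 ⋖ p.2 ∧ s p.1 ≠ s p.2} ⊆ ⋃ r ∈ Q ×ˢ Q, T r := by
    rintro ⟨a, b⟩ ⟨hab, hne⟩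
    obtain ⟨V, V', hV, hV', haV, hbV', hdis⟩ := t2_separation hne
    obtain ⟨p, hp, hpa, hpV⟩ := left_nbhd hQ hab (hV.preimage hs) haV
    obtain ⟨q, hq, hbq, hqV⟩ := right_nbhd hQ hab (hV'.preimage hs) hbV'
    refine mem_biUnion (x := (p, q)) ⟨hp, hq⟩ ⟨hab, hpa, hbq, ?_⟩
    exact hdis.mono (image_subset_iff.2 hpV) (image_subset_iff.2 hqV)
  have hex : ∃ r ∈ Q ×ˢ Q, ¬ (T r).Countable := by
    by_contra hno
    push Not at hno
    exact h (((hQc.prod hQc).biUnion hno).mono hcov)
  obtain ⟨r, _, hr⟩ := hex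
  exact embed_of_jumps hs hQ φ hφm hφ r.1 r.2 (T r) hr (fun t ht => ht.1) (fun t ht => ht.2.1)
    (fun t ht => ht.2.2.1) (fun t ht => ht.2.2.2)

/-- Countably many separable factors. -/
theorem main_countable {ι : Type*} [Countable ι] {K : ι → Type*} [∀ i, LinearOrder (K i)]
    [∀ i, TopologicalSpace (K i)] [∀ i, OrderTopology (K i)] [∀ i, CompactSpace (K i)]
    [∀ i, SeparableSpace (K i)] {X : Type*} [TopologicalSpace X] [T2Space X]
    {f : (∀ i, K i) → X} (hf : Continuous f) (hs : Function.Surjective f)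
    (hm : ¬ MetrizableSpace X) :
    ∃ A : Set unitInterval, ¬ A.Countable ∧ ∃ g : {w : Split // w.pt ∈ A} → X, IsEmbedding g := by
  classical
  have hXc : CompactSpace X := by
    rw [← isCompact_univ_iff, ← hs.range_eq]
    exact isCompact_range hf
  by_contra hno
  apply hm
  obtain ⟨D, hDc, hD⟩ := exists_countable_dense (∀ i, K i)
  have hsec : CSep f := by
    apply csep_pi hf hDc hD
    intro q _ i
    apply csep_of_jumps
    by_contra hunc
    apply hno
    exact embed_factor (hf.comp (continuous_const.update i continuous_id)) hunc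
  have : SecondCountableTopology X := hsec.secondCountable hf hs
  infer_instance

theorem main {ι : Type*} {L : ι → Type*} [∀ i, LinearOrder (L i)]
    [∀ i, TopologicalSpace (L i)] [∀ i, OrderTopology (L i)] [∀ i, CompactSpace (L i)]
    {X : Type*} [TopologicalSpace X] [T2Space X] [SeparableSpace X] (hX : ∀ x : X, IsGδ {x})
    {f : (∀ i, L i) → X} (hf : Continuous f) (hs : Function.Surjective f)
    (hm : ¬ MetrizableSpace X) :
    ∃ A : Set unitInterval, ¬ A.Countable ∧ ∃ g : {w : Split // w.pt ∈ A} → X, IsEmbedding g := by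
  classical
  have hXne : Nonempty X := by
    by_contra hne
    rw [not_nonempty_iff] at hne
    apply hm
    have : SecondCountableTopology X := inferInstance
    infer_instance
  obtain ⟨D, hDc, hD⟩ := exists_countable_dense X
  let Z : Set (∀ i, L i) := Function.surjInv hs '' D
  have hZc : Z.Countable := hDc.image _
  obtain ⟨d₀, hd₀⟩ := hD.nonempty
  let K : ∀ i, Set (L i) := fun i => closure ((fun z : ∀ i, L i => z i) '' Z)
  have hKne : ∀ i, Nonempty (K i) := fun i =>
    ⟨⟨Function.surjInv hs d₀ i, subset_closure ⟨_, ⟨d₀, hd₀, rfl⟩, rfl⟩⟩⟩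
  have hKsep : ∀ i, SeparableSpace (K i) := fun i => separable_closure (hZc.image _)
  have hKo : ∀ i, OrderTopology (K i) := fun i => orderTopology_of_isClosed isClosed_closure
  have hKc : ∀ i, CompactSpace (K i) := fun i =>
    isCompact_iff_compactSpace.1 isClosed_closure.isCompact
  let f₁ : (∀ i, K i) → X := fun z => f fun i => (z i).1
  have hf₁ : Continuous f₁ := hf.comp (continuous_pi fun i =>
    continuous_subtype_val.comp (continuous_apply i))
  have hs₁ : Function.Surjective f₁ := by
    rw [← range_eq_univ, ← univ_subset_iff, ← hD.closure_eq]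
    apply closure_minimal _ (isCompact_range hf₁).isClosed
    intro d hd
    refine ⟨fun i => ⟨Function.surjInv hs d i, subset_closure ⟨_, ⟨d, hd, rfl⟩, rfl⟩⟩, ?_⟩
    exact Function.surjInv_eq hs d
  obtain ⟨J, hJc, hJ⟩ := exists_countable_dep hX hf₁
  have : Countable J := hJc.to_subtype
  let p : ∀ i, K i := fun i => Classical.arbitrary (K i)
  let f₂ : (∀ j : J, K j) → X := fun z => f₁ fun i => if h : i ∈ J then z ⟨i, h⟩ else p i
  have hf₂ : Continuous f₂ := by
    apply hf₁.comp
    apply continuous_pi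
    intro i
    by_cases hi : i ∈ J
    · simp only [hi, dif_pos]
      exact continuous_apply (⟨i, hi⟩ : J)
    · simp only [hi, dif_neg, not_false_iff]
      exact continuous_const
  have hs₂ : Function.Surjective f₂ := by
    intro x
    obtain ⟨z, rfl⟩ := hs₁ x
    refine ⟨fun j => z j, ?_⟩
    apply hJ
    intro i hi
    simp only [hi, dif_pos]
  exact main_countable hf₂ hs₂ hm

end Pool.Agent.SplitInt
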