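import Pool.Agent.SplitInt.Main

/-!
# SplitInt / Red: reduction to one factor, and the general theorem
-/

set_option autoImplicit false

namespace Pool.Agent.SplitInt

open Set Topology Filter TopologicalSpace

/-- A continuous map with metrizable image is countably separated. -/
theorem csep_of_metrizable {K X : Type*} [TopologicalSpace K] [TopologicalSpace X] {s : K → X}
    (hs : Continuous s) {C : Set K} (hC : IsCompact C) (h : MetrizableSpace (s '' C)) :
    CSep (fun x : C => s x) := by
  have hcomp : CompactSpace (s '' C) := isCompact_iff_compactSpace.1 (hC.image hs)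
  have hsc : SecondCountableTopology (s '' C) := by
    letI := metrizableSpaceMetric (s '' C)
    infer_instance
  let g : C → s '' C := fun x => ⟨s x, x, x.2, rfl⟩
  have hg : Continuous g := (hs.comp continuous_subtype_val).subtype_mk _
  refine ⟨(fun U : Set (s '' C) => g ⁻¹' U) '' countableBasis (s '' C),
    (countable_countableBasis _).image _, ?_, ?_⟩
  · rintro _ ⟨U, hU, rfl⟩
    exact (isOpen_of_mem_countableBasis hU).preimage hg
  · intro z w hne
    have hne' : g z ≠ g w := fun h => hne (congrArg Subtype.val h)
    obtain ⟨U, V, hU, hV, hzU, hwV, hdis⟩ := t2_separation hne'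
    obtain ⟨U', hU', hzU', hUU'⟩ := (isBasis_countableBasis _).exists_subset_of_mem_open hzU hU
    obtain ⟨V', hV', hwV', hVV'⟩ := (isBasis_countableBasis _).exists_subset_of_mem_open hwV hV
    exact ⟨_, ⟨U', hU', rfl⟩, _, ⟨V', hV', rfl⟩, hzU', hwV', (hdis.mono hUU' hVV').preimage g⟩

/-- Reduction to one factor: if the image of a product of compact spaces is not metrizable, then
some section of the map takes the closure of a countable subset of the factor to a space which is
not metrizable. -/
theorem reduction {ι : Type*} [DecidableEq ι] {L : ι → Type*} [∀ i, TopologicalSpace (L i)]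
    [∀ i, CompactSpace (L i)] {X : Type*} [TopologicalSpace X] [T2Space X] [SeparableSpace X]
    (hX : ∀ x : X, IsGδ {x}) {f : (∀ i, L i) → X} (hf : Continuous f)
    (hs : Function.Surjective f) (hm : ¬ MetrizableSpace X) :
    ∃ (i : ι) (q : ∀ i, L i) (C : Set (L i)), C.Countable ∧
      ¬ MetrizableSpace ((fun x : L i => f (Function.update q i x)) '' closure C) := by
  classical
  by_contra hno
  push Not at hno
  apply hm
  have hXc : CompactSpace X := by
    rw [← isCompact_univ_iff, ← hs.range_eq]
    exact isCompact_range hf
  rcases isEmpty_or_nonempty X with hXe | hXne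
  · have : SecondCountableTopology X := inferInstance
    infer_instance
  obtain ⟨D, hDc, hD⟩ := exists_countable_dense X
  let Z : Set (∀ i, L i) := Function.surjInv hs '' D
  have hZc : Z.Countable := hDc.image _
  obtain ⟨d₀, hd₀⟩ := hD.nonempty
  let K : ∀ i, Set (L i) := fun i => closure ((fun z : ∀ i, L i => z i) '' Z)
  have hKne : ∀ i, Nonempty (K i) := fun i =>
    ⟨⟨Function.surjInv hs d₀ i, subset_closure ⟨_, ⟨d₀, hd₀, rfl⟩, rfl⟩⟩⟩
  have hKsep : ∀ i, SeparableSpace (K i) := fun i => separable_closure (hZc.image _)
  have hKc : ∀ i, CompactSpace (K i) := fun i =>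
    isCompact_iff_compactSpace.1 isClosed_closure.isCompact
  let f₁ : (∀ i, K i) → X := fun z => f fun i => (z i).1
  have hf₁ : Continuous f₁ := hf.comp (continuous_pi fun i =>
    continuous_subtype_val.comp (continuous_apply i))
  have hs₁ : Function.Surjective f₁ := by
    rw [← range_eq_univ, ← univ_subset_iff, ← hD.closure_eq]
    apply closure_minimal _ (isCompact_range hf₁).isClosed
    intro d hd
    refine ⟨fun i => ⟨Function.surjInv hs d i, subset_closure ⟨_, ⟨d, hd, rfl⟩, rfl⟩⟩, ?_⟩
    exact Function.surjInv_eq hs d
  obtain ⟨J, hJc, hJ⟩ := exists_countable_dep hX hf₁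
  have : Countable J := hJc.to_subtype
  let p : ∀ i, K i := fun i => Classical.arbitrary (K i)
  let ext : (∀ j : J, K j) → (∀ i, K i) := fun z i => if h : i ∈ J then z ⟨i, h⟩ else p i
  let f₂ : (∀ j : J, K j) → X := fun z => f₁ (ext z)
  have hf₂ : Continuous f₂ := by
    apply hf₁.comp
    apply continuous_pi
    intro i
    by_cases hi : i ∈ J
    · simp only [ext, hi, dif_pos]
      exact continuous_apply (⟨i, hi⟩ : J)
    · simp only [ext, hi, dif_neg, not_false_iff]
      exact continuous_const
  have hs₂ : Function.Surjective f₂ := by
    intro x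
    obtain ⟨z, rfl⟩ := hs₁ x
    refine ⟨fun j => z j, ?_⟩
    apply hJ
    intro i hi
    simp only [ext, hi, dif_pos]
  obtain ⟨E, hEc, hE⟩ := exists_countable_dense (∀ j : J, K j)
  have hsec : CSep f₂ := by
    apply csep_pi hf₂ hEc hE
    intro q _ i
    have h1 := csep_of_metrizable (s := fun x : L i => f (Function.update (fun k => (ext q k).1) i x))
      (hf.comp (continuous_const.update i.1 continuous_id)) (C := K i) isClosed_closure.isCompact
      (hno i (fun k => (ext q k).1) _ (hZc.image _))
    have h2 : (fun x : K i => f₂ (Function.update q i x)) =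
        fun x : K i => f (Function.update (fun k => (ext q k).1) i x) := by
      funext x
      simp only [f₂, f₁]
      congr 1
      funext k
      by_cases hk : k ∈ J
      · by_cases hki : (⟨k, hk⟩ : J) = i
        · subst hki
          simp [ext, hk]
        · have hki' : k ≠ i.1 := fun h => hki (Subtype.ext h)
          simp [ext, hk, Function.update_of_ne hki, Function.update_of_ne hki']
      · have hki' : k ≠ i.1 := by
          rintro rfl
          exact hk i.2
        simp [ext, hk, Function.update_of_ne hki']
    rw [h2]
    exact h1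
  have : SecondCountableTopology X := hsec.secondCountable hf₂ hs₂
  infer_instance

universe u v w

/-- The closures of the countable subsets are metrizable or continuous images of compact linearly
ordered spaces. -/
def Good (L : Type u) [TopologicalSpace L] : Prop :=
  ∀ C : Set L, C.Countable → MetrizableSpace (closure C) ∨ OrdImage (closure C)

theorem main_good {ι : Type v} {L : ι → Type u} [∀ i, TopologicalSpace (L i)]
    [∀ i, CompactSpace (L i)] (hL : ∀ i, Good (L i)) {X : Type w} [TopologicalSpace X] [T2Space X]
    [SeparableSpace X] (hX : ∀ x : X, IsGδ {x}) {f : (∀ i, L i) → X} (hf : Continuous f)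
    (hs : Function.Surjective f) (hm : ¬ MetrizableSpace X) : HasSplit X := by
  classical
  obtain ⟨i, q, C, hC, hnm⟩ := reduction hX hf hs hm
  set s : L i → X := fun x => f (Function.update q i x) with hs'
  have hsc : Continuous s := hf.comp (continuous_const.update i continuous_id)
  let g₀ : closure C → s '' closure C := fun x => ⟨s x, x, x.2, rfl⟩
  have hg₀ : Continuous g₀ := (hsc.comp continuous_subtype_val).subtype_mk _
  have hg₀s : Function.Surjective g₀ := by
    rintro ⟨_, x, hx, rfl⟩
    exact ⟨⟨x, hx⟩, rfl⟩
  have hCc : CompactSpace (closure C) := isCompact_iff_compactSpace.1 isClosed_closure.isCompact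
  have hCsep : SeparableSpace (closure C) := separable_closure hC
  have hYsep : SeparableSpace (s '' closure C) := hg₀s.denseRange.separableSpace hg₀
  rcases hL i C hC with hmet | ⟨K, iK1, iK2, g, iK3, iK4, hg, hgs⟩
  · exfalso
    apply hnm
    have hsec : SecondCountableTopology (closure C) := by
      letI := metrizableSpaceMetric (closure C)
      infer_instance
    have hcs : CSep g₀ := by
      have h1 := csep_of_metrizable (s := (id : closure C → closure C)) continuous_id
        (C := univ) isCompact_univ (by rw [image_id]; exact inferInstance)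
      obtain ⟨G, hGc, hGo, hG⟩ := h1
      refine ⟨(fun U : Set (univ : Set (closure C)) => (fun x => (⟨x, mem_univ x⟩ : (univ : Set (closure C)))) ⁻¹' U) '' G,
        hGc.image _, ?_, ?_⟩
      · rintro _ ⟨U, hU, rfl⟩
        exact (hGo U hU).preimage (continuous_id.subtype_mk _)
      · intro z w hzw
        obtain ⟨U, hU, V, hV, hzU, hwV, hdis⟩ := hG ⟨z, mem_univ z⟩ ⟨w, mem_univ w⟩
          (fun h => hzw (congrArg g₀ h))
        exact ⟨_, ⟨U, hU, rfl⟩, _, ⟨V, hV, rfl⟩, hzU, hwV, hdis.preimage _⟩
    have : SecondCountableTopology (s '' closure C) := hcs.secondCountable hg₀ hg₀s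
    have : CompactSpace (s '' closure C) := by
      rw [← isCompact_univ_iff, ← hg₀s.range_eq]
      exact isCompact_range hg₀
    infer_instance
  · obtain ⟨A, hA, e, he⟩ := main (ι := Unit) (L := fun _ => K) (X := s '' closure C)
      (fun y => by
        have h1 := (hX y.1).preimage (f := (Subtype.val : s '' closure C → X)) continuous_subtype_val
        have h2 : (Subtype.val : s '' closure C → X) ⁻¹' {y.1} = {y} := by
          ext z
          simp only [mem_preimage, mem_singleton_iff]
          exact Subtype.ext_iff.symm
        rwa [h2] at h1)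
      (f := fun z => g₀ (g (z ()))) (hg₀.comp (hg.comp (continuous_apply ())))
      (fun y => by
        obtain ⟨x, rfl⟩ := hg₀s y
        obtain ⟨k, rfl⟩ := hgs x
        exact ⟨fun _ => k, rfl⟩)
      hnm
    exact ⟨A, hA, fun w => (e w).1, IsEmbedding.subtypeVal.comp he⟩

/-- Compact linearly ordered spaces are good. -/
theorem good_of_linearOrder {L : Type u} [LinearOrder L] [TopologicalSpace L] [OrderTopology L]
    [CompactSpace L] : Good L := by
  intro C _
  right
  exact ⟨closure C, inferInstance, inferInstance, id, orderTopology_of_isClosed isClosed_closure,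
    isCompact_iff_compactSpace.1 isClosed_closure.isCompact, continuous_id, Function.surjective_id⟩

theorem main_factor {ι : Type v} {L : ι → Type u} [∀ i, TopologicalSpace (L i)]
    [∀ i, CompactSpace (L i)] (hL : ∀ i, Factor (L i)) {X : Type w} [TopologicalSpace X]
    [T2Space X] [SeparableSpace X] (hX : ∀ x : X, IsGδ {x}) {f : (∀ i, L i) → X}
    (hf : Continuous f) (hs : Function.Surjective f) (hm : ¬ MetrizableSpace X) : HasSplit X := by
  have h : ∀ i, ∃ (M : Type u) (_ : TopologicalSpace M) (h : M → L i),
      CompactSpace M ∧ Good M ∧ Continuous h ∧ Function.Surjective h := by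
    intro i
    rcases hL i with ⟨K, iK1, iK2, g, iK3, iK4, hg, hgs⟩ | h
    · exact ⟨K, inferInstance, g, inferInstance, good_of_linearOrder, hg, hgs⟩
    · exact ⟨L i, inferInstance, id, inferInstance, h, continuous_id, Function.surjective_id⟩
  choose M tM g cM gM hg hgs using h
  refine main_good gM hX (f := fun z => f fun i => g i (z i))
    (hf.comp (continuous_pi fun i => (hg i).comp (continuous_apply i))) ?_ hm
  intro x
  obtain ⟨z, rfl⟩ := hs x
  refine ⟨fun i => Function.surjInv (hgs i) (z i), ?_⟩
  simp only [Function.surjInv_eq]

end Pool.Agent.SplitInt
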