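import Mathlib

/-!
# SplitInt / Sep: countable separation and second countable images
-/

set_option autoImplicit false

namespace Pool.Agent.SplitInt

open Set Topology Filter TopologicalSpace

/-- `f` is countably separated: there is a countable family of open sets of the domain such that
points with different values lie in disjoint members of the family. -/
def CSep {P X : Type*} [TopologicalSpace P] (f : P → X) : Prop :=
  ∃ G : Set (Set P), G.Countable ∧ (∀ U ∈ G, IsOpen U) ∧
    ∀ z w, f z ≠ f w → ∃ U ∈ G, ∃ V ∈ G, z ∈ U ∧ w ∈ V ∧ Disjoint U V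

theorem CSep.secondCountable {P X : Type*} [TopologicalSpace P] [TopologicalSpace X]
    [CompactSpace P] [T2Space X] {f : P → X} (hf : Continuous f) (hs : Function.Surjective f)
    (h : CSep f) : SecondCountableTopology X := by
  classical
  obtain ⟨G, hGc, hGo, hG⟩ := h
  -- finite intersections
  let I : Set (Set P) := (fun F : Set (Set P) => ⋂₀ F) '' {F | F.Finite ∧ F ⊆ G}
  have hIc : I.Countable := (Set.countable_ofPred_finite_subset hGc).image _
  have hIo : ∀ U ∈ I, IsOpen U := by
    rintro _ ⟨F, ⟨hF, hFG⟩, rfl⟩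
    exact hF.isOpen_sInter fun U hU => hGo U (hFG hU)
  have hI : ∀ (z : P) (U : Set X), IsOpen U → f z ∈ U → ∃ V ∈ I, z ∈ V ∧ V ⊆ f ⁻¹' U := by
    intro z U hU hz
    have hK : IsCompact (f ⁻¹' U)ᶜ := (hU.preimage hf).isClosed_compl.isCompact
    have hch : ∀ w : P, w ∈ (f ⁻¹' U)ᶜ → ∃ V ∈ G, ∃ V' ∈ G, z ∈ V ∧ w ∈ V' ∧ Disjoint V V' := by
      intro w hw
      apply hG
      intro he
      apply hw
      rw [mem_preimage, ← he]
      exact hz
    choose! V hV V' hV' hzV hwV' hdis using hch
    obtain ⟨t, htc⟩ := hK.elim_nhds_subcover' (fun w _ => V' w)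
      (fun w hw => (hGo _ (hV' w hw)).mem_nhds (hwV' w hw))
    refine ⟨⋂₀ ((fun w : ((f ⁻¹' U)ᶜ : Set P) => V w) '' (t : Set _)),
      ⟨_, ⟨(t.finite_toSet).image _, ?_⟩, rfl⟩, ?_, ?_⟩
    · rintro _ ⟨w, _, rfl⟩
      exact hV w w.2
    · rintro _ ⟨w, _, rfl⟩
      exact hzV w w.2
    · intro y hy
      by_contra hyU
      obtain ⟨w, hw, hyw⟩ := Set.mem_iUnion₂.1 (htc hyU)
      exact Set.disjoint_left.1 (hdis w w.2) (hy _ ⟨w, hw, rfl⟩) hyw
  -- finite unions
  let J : Set (Set P) := (fun F : Set (Set P) => ⋃₀ F) '' {F | F.Finite ∧ F ⊆ I}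
  have hJc : J.Countable := (Set.countable_ofPred_finite_subset hIc).image _
  let B : Set (Set X) := (fun W : Set P => (f '' Wᶜ)ᶜ) '' J
  have hBc : B.Countable := hJc.image _
  have hB : IsTopologicalBasis B := by
    apply isTopologicalBasis_of_isOpen_of_nhds
    · rintro _ ⟨_, ⟨F, ⟨hF, hFI⟩, rfl⟩, rfl⟩
      have h1 : IsOpen (⋃₀ F) := isOpen_sUnion fun U hU => hIo U (hFI hU)
      exact (h1.isClosed_compl.isCompact.image hf).isClosed.isOpen_compl
    · intro x U hx hU
      have hK : IsCompact (f ⁻¹' {x}) := (isClosed_singleton.preimage hf).isCompact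
      have hch : ∀ z : P, z ∈ f ⁻¹' {x} → ∃ V ∈ I, z ∈ V ∧ V ⊆ f ⁻¹' U := by
        intro z hz
        apply hI z U hU
        rw [show f z = x from hz]
        exact hx
      choose! V hV hzV hVU using hch
      obtain ⟨t, htc⟩ := hK.elim_nhds_subcover' (fun w _ => V w)
        (fun w hw => (hIo _ (hV w hw)).mem_nhds (hzV w hw))
      refine ⟨_, ⟨_, ⟨(fun w : (f ⁻¹' {x} : Set P) => V w) '' (t : Set _),
        ⟨(t.finite_toSet).image _, ?_⟩, rfl⟩, rfl⟩, ?_, ?_⟩
      · rintro _ ⟨w, _, rfl⟩
        exact hV w w.2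
      · rintro ⟨y, hy, hyx⟩
        apply hy
        obtain ⟨w, hw, hyw⟩ := Set.mem_iUnion₂.1 (htc (show y ∈ f ⁻¹' {x} from hyx))
        exact ⟨_, ⟨w, hw, rfl⟩, hyw⟩
      · intro y hy
        obtain ⟨z, rfl⟩ := hs y
        by_contra hyU
        apply hy
        refine ⟨z, ?_, rfl⟩
        rintro ⟨_, ⟨w, hw, rfl⟩, hzw⟩
        exact hyU (hVU w w.2 hzw)
  exact hB.secondCountableTopology hBc

theorem csep_pi {ι : Type*} [Countable ι] {K : ι → Type*} [∀ i, TopologicalSpace (K i)]
    {X : Type*} [TopologicalSpace X] [T2Space X] {f : (∀ i, K i) → X} (hf : Continuous f)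
    [DecidableEq ι] {D : Set (∀ i, K i)} (hDc : D.Countable) (hD : Dense D)
    (h : ∀ q ∈ D, ∀ i, CSep (fun x : K i => f (Function.update q i x))) : CSep f := by
  classical
  choose! G hGc hGo hG using h
  refine ⟨⋃ q ∈ D, ⋃ i, (fun U : Set (K i) => (fun z : ∀ i, K i => z i) ⁻¹' U) '' G q i, ?_, ?_, ?_⟩
  · exact hDc.biUnion fun q hq => Set.countable_iUnion fun i => (hGc q hq i).image _
  · intro U hU
    simp only [mem_iUnion] at hU
    obtain ⟨q, hq, i, V, hV, rfl⟩ := hU
    exact (hGo q hq i V hV).preimage (continuous_apply i)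
  · intro z w hzw
    by_contra hno
    apply hzw
    -- one coordinate
    have h1 : ∀ i, ∀ q : ∀ i, K i, f (Function.update q i (z i)) = f (Function.update q i (w i)) := by
      intro i q
      have h2 : (fun q : ∀ i, K i => f (Function.update q i (z i))) =
          fun q => f (Function.update q i (w i)) := by
        apply Continuous.ext_on hD
        · exact hf.comp (continuous_id.update i continuous_const)
        · exact hf.comp (continuous_id.update i continuous_const)
        · intro q hq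
          by_contra hne
          obtain ⟨U, hU, V, hV, hzU, hwV, hdis⟩ := hG q hq i (z i) (w i) hne
          apply hno
          refine ⟨_, ?_, _, ?_, hzU, hwV, hdis.preimage (fun z : ∀ i, K i => z i)⟩
          · simp only [mem_iUnion]
            exact ⟨q, hq, i, U, hU, rfl⟩
          · simp only [mem_iUnion]
            exact ⟨q, hq, i, V, hV, rfl⟩
      exact congrFun h2 q
    -- finitely many coordinates
    have h2 : ∀ s : Finset ι, f (s.piecewise w z) = f z := by
      intro s
      induction s using Finset.induction_on with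
      | empty => simp
      | insert i s hi ih =>
        rw [Finset.piecewise_insert, ← h1 i, ← ih]
        congr 1
        funext j
        by_cases hj : j = i
        · subst hj
          simp [hi]
        · simp [hj]
    have h3 : Tendsto (fun s : Finset ι => s.piecewise w z) atTop (𝓝 w) := by
      rw [tendsto_pi_nhds]
      intro i
      apply tendsto_const_nhds.congr'
      filter_upwards [eventually_ge_atTop {i}] with s hs
      rw [Finset.piecewise_eq_of_mem]
      exact hs (Finset.mem_singleton_self i)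
    have h4 : Tendsto (fun s : Finset ι => f (s.piecewise w z)) atTop (𝓝 (f w)) :=
      (hf.tendsto w).comp h3
    simp only [h2] at h4
    exact tendsto_nhds_unique tendsto_const_nhds h4

/-- A linearly ordered space in which only countably many jumps are not collapsed by `s`. -/
theorem csep_of_jumps {K : Type*} [LinearOrder K] [TopologicalSpace K] [OrderTopology K]
    [SeparableSpace K] {X : Type*} (s : K → X)
    (h : {p : K × K | p.1 ⋖ p.2 ∧ s p.1 ≠ s p.2}.Countable) : CSep s := by
  obtain ⟨Q, hQc, hQ⟩ := exists_countable_dense K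
  let T : Set K := Q ∪ (Prod.fst '' {p : K × K | p.1 ⋖ p.2 ∧ s p.1 ≠ s p.2} ∪
    Prod.snd '' {p : K × K | p.1 ⋖ p.2 ∧ s p.1 ≠ s p.2})
  have hT : T.Countable := hQc.union ((h.image _).union (h.image _))
  have key : ∀ z w, z < w → s z ≠ s w → ∃ a ∈ T, ∃ b ∈ T, z < a ∧ b < w ∧
      Disjoint (Iio a) (Ioi b) := by
    intro z w hzw hne
    by_cases hj : z ⋖ w
    · refine ⟨w, Or.inr (Or.inr ⟨(z, w), ⟨hj, hne⟩, rfl⟩), z, Or.inr (Or.inl ⟨(z, w), ⟨hj, hne⟩, rfl⟩),
        hzw, hzw, ?_⟩
      rw [Set.disjoint_left]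
      intro x hx hx'
      exact hj.2 hx' hx
    · rw [not_covBy_iff hzw] at hj
      obtain ⟨c, hc⟩ := hj
      obtain ⟨t, ht, htQ⟩ := hQ.exists_mem_open isOpen_Ioo ⟨c, hc⟩
      refine ⟨t, Or.inl ht, t, Or.inl ht, htQ.1, htQ.2, ?_⟩
      rw [Set.disjoint_left]
      intro x hx hx'
      exact lt_asymm hx hx'
  refine ⟨Iio '' T ∪ Ioi '' T, (hT.image _).union (hT.image _), ?_, ?_⟩
  · rintro _ (⟨t, _, rfl⟩ | ⟨t, _, rfl⟩)
    · exact isOpen_Iio
    · exact isOpen_Ioi
  · intro z w hne
    rcases lt_trichotomy z w with hlt | heq | hgt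
    · obtain ⟨a, ha, b, hb, hza, hbw, hdis⟩ := key z w hlt hne
      exact ⟨_, Or.inl ⟨a, ha, rfl⟩, _, Or.inr ⟨b, hb, rfl⟩, hza, hbw, hdis⟩
    · exact absurd (congrArg s heq) hne
    · obtain ⟨a, ha, b, hb, hza, hbw, hdis⟩ := key w z hgt hne.symm
      exact ⟨_, Or.inr ⟨b, hb, rfl⟩, _, Or.inl ⟨a, ha, rfl⟩, hbw, hza, hdis.symm⟩

end Pool.Agent.SplitInt
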